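import Pool.Agent.Y958.U.Stm

/-!
Job 999 (Y958-U, HAV): the average of `(n / φ n) ^ κ` over the sides of nondegenerate cubes.
-/

set_option autoImplicit false

open Finset

namespace Pool.Agent.Y991.HAV

open Pool.Agent.Y958.U

/-- the local factor minus one -/
noncomputable def gg (m p : ℕ) : ℝ := ((1 - (p : ℝ)⁻¹)⁻¹) ^ m - 1

lemma pow_le_aux (m : ℕ) {x : ℝ} (h0 : 0 ≤ x) (h1 : x ≤ 1) :
    (1 + x) ^ m ≤ 1 + (2 ^ m - 1) * x := by
  induction m with
  | zero => simp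
  | succ m ih =>
    have h2 : (1 : ℝ) ≤ 2 ^ m := one_le_pow₀ (by norm_num)
    calc (1 + x) ^ (m + 1) = (1 + x) ^ m * (1 + x) := pow_succ _ _
      _ ≤ (1 + (2 ^ m - 1) * x) * (1 + x) := by gcongr
      _ ≤ 1 + (2 ^ (m + 1) - 1) * x := by
        rw [pow_succ]
        nlinarith [mul_nonneg (sub_nonneg.mpr h2) (mul_nonneg h0 (sub_nonneg.mpr h1))]

lemma inv_eq {p : ℕ} (hp : 2 ≤ p) : (1 - (p : ℝ)⁻¹)⁻¹ = 1 + 1 / ((p : ℝ) - 1) := by
  have h1 : (2 : ℝ) ≤ p := by exact_mod_cast hp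
  have h2 : (p : ℝ) ≠ 0 := by positivity
  have h3 : (p : ℝ) - 1 ≠ 0 := by linarith
  field_simp
  ring

lemma gg_nonneg (m : ℕ) {p : ℕ} (hp : 2 ≤ p) : 0 ≤ gg m p := by
  unfold gg
  rw [inv_eq hp]
  have h1 : (2 : ℝ) ≤ p := by exact_mod_cast hp
  have h2 : 0 ≤ 1 / ((p : ℝ) - 1) := by
    apply div_nonneg (by norm_num); linarith
  have := one_le_pow₀ (n := m) (show (1 : ℝ) ≤ 1 + 1 / ((p : ℝ) - 1) by linarith)
  linarith

lemma gg_le (m : ℕ) {p : ℕ} (hp : 2 ≤ p) : gg m p ≤ 2 ^ (m + 1) / p := by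
  unfold gg
  rw [inv_eq hp]
  have h1 : (2 : ℝ) ≤ p := by exact_mod_cast hp
  have h2 : 0 ≤ 1 / ((p : ℝ) - 1) := by
    apply div_nonneg (by norm_num); linarith
  have h3 : 1 / ((p : ℝ) - 1) ≤ 1 := by
    rw [div_le_one (by linarith)]; linarith
  have h4 : 1 / ((p : ℝ) - 1) ≤ 2 / p := by
    rw [div_le_div_iff₀ (by linarith) (by linarith)]; linarith
  have h5 := pow_le_aux m h2 h3
  have h6 : (1 : ℝ) ≤ 2 ^ m := one_le_pow₀ (by norm_num)
  calc (1 + 1 / ((p : ℝ) - 1)) ^ m - 1 ≤ (2 ^ m - 1) * (1 / ((p : ℝ) - 1)) := by linarith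
    _ ≤ 2 ^ m * (2 / p) := by gcongr; linarith
    _ = _ := by rw [pow_succ]; ring

lemma hh_eq (m : ℕ) {v : ℕ} (hv : v ≠ 0) : hh m v = ∏ p ∈ v.primeFactors, (1 + gg m p) := by
  unfold hh
  have h1 : ((v.totient : ℕ) : ℝ) = v * ∏ p ∈ v.primeFactors, (1 - (p : ℝ)⁻¹) := by
    have h := congrArg (Rat.cast : ℚ → ℝ) (Nat.totient_eq_mul_prod_factors v)
    rw [Rat.cast_natCast, Rat.cast_mul, Rat.cast_natCast, Rat.cast_prod] at h
    rw [h]
    congr 1
    apply Finset.prod_congr rfl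
    intro p _
    push_cast
    rfl
  have hv' : (v : ℝ) ≠ 0 := by exact_mod_cast hv
  rw [h1, div_mul_eq_div_div, div_self hv', one_div, ← Finset.prod_inv_distrib,
    ← Finset.prod_pow]
  apply Finset.prod_congr rfl
  intro p _
  unfold gg
  ring

lemma one_le_hh (m : ℕ) {v : ℕ} (hv : v ≠ 0) : 1 ≤ hh m v := by
  rw [hh_eq m hv]
  calc (1 : ℝ) = ∏ p ∈ v.primeFactors, (1 : ℝ) := by simp
    _ ≤ _ := by
      apply Finset.prod_le_prod
      · intro _ _; norm_num
      · intro p hp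
        have := gg_nonneg m (Nat.prime_of_mem_primeFactors hp).two_le
        linarith

lemma hh_nonneg (m v : ℕ) : 0 ≤ hh m v := by
  unfold hh; positivity

/-- `∑_{v ≤ V} (v / φ v) ^ m ≤ C_m V` -/
theorem sum_hh (m V : ℕ) :
    ∑ v ∈ Icc 1 V, hh m v ≤ Real.exp (2 ^ (m + 1) * ∑' n : ℕ, 1 / (n : ℝ) ^ 2) * V := by
  classical
  obtain ⟨PP, hPP⟩ : ∃ PP : Finset ℕ, PP = (Icc 1 V).filter Nat.Prime := ⟨_, rfl⟩
  have hpp : ∀ p ∈ PP, 2 ≤ p := by
    intro p hp
    rw [hPP, mem_filter] at hp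
    exact hp.2.two_le
  have e1 : ∑ v ∈ Icc 1 V, hh m v =
      ∑ v ∈ Icc 1 V, ∑ s ∈ PP.powerset, if s ⊆ v.primeFactors then ∏ p ∈ s, gg m p else 0 := by
    apply Finset.sum_congr rfl
    intro v hv
    rw [mem_Icc] at hv
    have hsub : v.primeFactors ⊆ PP := by
      intro p hp
      rw [hPP, mem_filter, mem_Icc]
      have h1 := Nat.prime_of_mem_primeFactors hp
      have h2 := Nat.le_of_mem_primeFactors hp
      exact ⟨⟨h1.one_le, by omega⟩, h1⟩
    rw [hh_eq m (by omega), Finset.prod_one_add, ← Finset.sum_filter]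
    apply Finset.sum_congr _ (fun _ _ => rfl)
    ext s
    rw [mem_powerset, mem_filter, mem_powerset]
    exact ⟨fun h => ⟨h.trans hsub, h⟩, fun h => h.2⟩
  rw [e1, Finset.sum_comm]
  have h2 : ∀ s ∈ PP.powerset, ∑ v ∈ Icc 1 V, (if s ⊆ v.primeFactors then ∏ p ∈ s, gg m p else 0) ≤
      V * ∏ p ∈ s, gg m p / p := by
    intro s hs
    rw [mem_powerset] at hs
    have hg : 0 ≤ ∏ p ∈ s, gg m p := Finset.prod_nonneg fun p hp => gg_nonneg m (hpp p (hs hp))
    have hdvd : ∀ v ∈ (Icc 1 V).filter (fun v => s ⊆ v.primeFactors), (∏ p ∈ s, p) ∣ v := by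
      intro v hv
      rw [mem_filter, mem_Icc] at hv
      refine (Finset.prod_dvd_prod_of_subset _ _ _ hv.2).trans (Nat.prod_primeFactors_dvd v)
    have hpos : 0 < ∏ p ∈ s, p := Finset.prod_pos fun p hp => by
      have := hpp p (hs hp); omega
    have hcard : (((Icc 1 V).filter (fun v => s ⊆ v.primeFactors)).card : ℝ) ≤
        V / ∏ p ∈ s, (p : ℝ) := by
      have h3 : ((Icc 1 V).filter (fun v => s ⊆ v.primeFactors)).card ≤ V / ∏ p ∈ s, p := by
        have h4 : (Icc 1 V).filter (fun v => s ⊆ v.primeFactors) ⊆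
            (Icc 1 V).filter (fun v => (∏ p ∈ s, p) ∣ v) := by
          intro v hv
          have := hdvd v hv
          rw [mem_filter] at hv ⊢
          exact ⟨hv.1, this⟩
        refine (Finset.card_le_card h4).trans ?_
        have h5 := Nat.Ioc_filter_dvd_card_eq_div V (∏ p ∈ s, p)
        rw [← h5]
        apply Finset.card_le_card
        intro v hv
        rw [mem_filter, mem_Icc] at hv
        rw [mem_filter, mem_Ioc]
        exact ⟨⟨by omega, hv.1.2⟩, hv.2⟩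
      calc (((Icc 1 V).filter (fun v => s ⊆ v.primeFactors)).card : ℝ) ≤
          ((V / ∏ p ∈ s, p : ℕ) : ℝ) := by exact_mod_cast h3
        _ ≤ (V : ℝ) / ((∏ p ∈ s, p : ℕ) : ℝ) := Nat.cast_div_le
        _ = _ := by rw [Nat.cast_prod]
    rw [← Finset.sum_filter, Finset.sum_const, nsmul_eq_mul, Finset.prod_div_distrib]
    calc _ ≤ (V / ∏ p ∈ s, (p : ℝ)) * ∏ p ∈ s, gg m p := by gcongr
      _ = _ := by ring
  refine (Finset.sum_le_sum h2).trans ?_
  rw [← Finset.mul_sum, ← Finset.prod_one_add, mul_comm]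
  gcongr
  calc ∏ p ∈ PP, (1 + gg m p / p) ≤ ∏ p ∈ PP, Real.exp (2 ^ (m + 1) * (1 / (p : ℝ) ^ 2)) := by
        apply Finset.prod_le_prod
        · intro p hp
          have := gg_nonneg m (hpp p hp)
          positivity
        · intro p hp
          have h3 := gg_le m (hpp p hp)
          have h4 : (0 : ℝ) < p := by
            have := hpp p hp
            exact_mod_cast (by omega : 0 < p)
          have h5 : gg m p / p ≤ 2 ^ (m + 1) * (1 / (p : ℝ) ^ 2) := by
            calc gg m p / p ≤ (2 ^ (m + 1) / p) / p := by gcongr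
              _ = _ := by field_simp
          calc 1 + gg m p / p ≤ 1 + 2 ^ (m + 1) * (1 / (p : ℝ) ^ 2) := by linarith
            _ ≤ _ := by
              rw [add_comm]
              exact Real.add_one_le_exp _
    _ = Real.exp (2 ^ (m + 1) * ∑ p ∈ PP, 1 / (p : ℝ) ^ 2) := by
        rw [← Real.exp_sum, Finset.mul_sum]
    _ ≤ _ := by
        apply Real.exp_le_exp.mpr
        gcongr
        exact (Real.summable_one_div_nat_pow.mpr (by norm_num)).sum_le_tsum _
          (fun _ _ => by positivity)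

end Pool.Agent.Y991.HAV
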