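import Pool.Agent.Y991.HAV.Avg

/-!
Job 999 (Y958-U, HAV): the average of `(n / φ n) ^ κ` over the sides of nondegenerate cubes.
-/

set_option autoImplicit false

open Finset

namespace Pool.Agent.Y991.HAV

open Pool.Agent.Y958.U

/-- the constant of `sum_hh` -/
noncomputable def EE (m : ℕ) : ℝ := Real.exp (2 ^ (m + 1) * ∑' n : ℕ, 1 / (n : ℝ) ^ 2)

lemma EE_pos (m : ℕ) : 0 < EE m := Real.exp_pos _

lemma prod_le_aux {ι : Type*} (s : Finset ι) (a : ι → ℝ) (h : ∀ i ∈ s, 1 ≤ a i) :
    ∏ i ∈ s, a i ≤ 1 + ∑ i ∈ s, a i ^ s.card := by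
  rcases s.eq_empty_or_nonempty with rfl | hs
  · simp
  obtain ⟨i₀, hi₀, hm⟩ := s.exists_max_image a hs
  have h1 : ∏ i ∈ s, a i ≤ a i₀ ^ s.card := by
    rw [← Finset.prod_const]
    apply Finset.prod_le_prod
    · intro i hi
      have := h i hi; linarith
    · intro i hi
      exact hm i hi
  have h2 : a i₀ ^ s.card ≤ ∑ i ∈ s, a i ^ s.card := by
    apply Finset.single_le_sum (f := fun i => a i ^ s.card) _ hi₀
    intro i hi
    have := h i hi
    exact pow_nonneg (by linarith) _
  linarith

/-- `hh` of a nonzero integer -/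
noncomputable def ff (m : ℕ) (z : ℤ) : ℝ := if z = 0 then 0 else hh m z.natAbs

lemma ff_nonneg (m : ℕ) (z : ℤ) : 0 ≤ ff m z := by
  unfold ff
  split_ifs
  · exact le_refl _
  · exact hh_nonneg _ _

lemma sum_ff (m M : ℕ) : ∑ z ∈ Icc (-(M : ℤ)) M, ff m z ≤ 2 * EE m * M := by
  have h1 : ∑ z ∈ Icc (-(M : ℤ)) M, ff m z =
      ∑ z ∈ (Icc (-(M : ℤ)) M).filter (fun z => z ≠ 0), hh m z.natAbs := by
    rw [Finset.sum_filter]
    apply Finset.sum_congr rfl
    intro z _
    unfold ff
    by_cases hz : z = 0 <;> simp [hz]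
  have h2 : ∑ z ∈ (Icc (-(M : ℤ)) M).filter (fun z => z ≠ 0), hh m z.natAbs =
      ∑ v ∈ Icc 1 M, ∑ z ∈ ((Icc (-(M : ℤ)) M).filter (fun z => z ≠ 0)).filter
        (fun z => z.natAbs = v), hh m z.natAbs := by
    rw [Finset.sum_fiberwise_of_maps_to]
    intro z hz
    rw [mem_filter, mem_Icc] at hz
    rw [mem_Icc]
    omega
  rw [h1, h2]
  calc _ ≤ ∑ v ∈ Icc 1 M, 2 * hh m v := by
        apply Finset.sum_le_sum
        intro v _
        have h3 : ∑ z ∈ ((Icc (-(M : ℤ)) M).filter (fun z => z ≠ 0)).filter
            (fun z => z.natAbs = v), hh m z.natAbs =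
            (((Icc (-(M : ℤ)) M).filter (fun z => z ≠ 0)).filter
              (fun z => z.natAbs = v)).card * hh m v := by
          rw [← nsmul_eq_mul, ← Finset.sum_const]
          apply Finset.sum_congr rfl
          intro z hz
          rw [mem_filter] at hz
          rw [hz.2]
        rw [h3]
        apply mul_le_mul_of_nonneg_right _ (hh_nonneg _ _)
        have h4 : ((Icc (-(M : ℤ)) M).filter (fun z => z ≠ 0)).filter
            (fun z => z.natAbs = v) ⊆ {(v : ℤ), -(v : ℤ)} := by
          intro z hz
          rw [mem_filter] at hz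
          rw [mem_insert, mem_singleton]
          omega
        have h5 := (Finset.card_le_card h4).trans Finset.card_le_two
        exact_mod_cast h5
    _ = 2 * ∑ v ∈ Icc 1 M, hh m v := by rw [Finset.mul_sum]
    _ ≤ 2 * (EE m * M) := by
        have := sum_hh m M
        unfold EE
        linarith
    _ = _ := by ring

lemma abs_sr_le {d N : ℕ} {r : Fin d → ℤ} (hr : r ∈ bx d N) (ω : Finset (Fin d)) :
    |sr r ω| ≤ d * N := by
  unfold bx at hr
  rw [Fintype.mem_piFinset] at hr
  unfold sr
  calc |∑ j ∈ ω, r j| ≤ ∑ j ∈ ω, |r j| := Finset.abs_sum_le_sum_abs _ _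
    _ ≤ ∑ j ∈ ω, (N : ℤ) := by
        apply Finset.sum_le_sum
        intro j _
        have := hr j
        rw [mem_Icc] at this
        exact abs_le.mpr this
    _ = ω.card * N := by rw [Finset.sum_const, nsmul_eq_mul]
    _ ≤ d * N := by
        have h1 : ω.card ≤ d := by
          have := Finset.card_le_univ ω
          rwa [Fintype.card_fin] at this
        have h2 : (ω.card : ℤ) ≤ d := by exact_mod_cast h1
        exact mul_le_mul_of_nonneg_right h2 (by positivity)

lemma upd_inj {d : ℕ} {ω ω' : Finset (Fin d)} {j : Fin d} (hj : ¬ (j ∈ ω ↔ j ∈ ω')) :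
    Function.Injective (fun r : Fin d → ℤ => Function.update r j (sr r ω - sr r ω')) := by
  intro r r' h
  have h1 : ∀ i, i ≠ j → r i = r' i := by
    intro i hi
    have := congrFun h i
    simpa [Function.update_of_ne hi] using this
  have h2 : sr r ω - sr r ω' = sr r' ω - sr r' ω' := by
    have := congrFun h j
    simpa using this
  have h3 : ∀ η : Finset (Fin d), sr r η - sr r' η = if j ∈ η then r j - r' j else 0 := by
    intro η
    unfold sr
    rw [← Finset.sum_sub_distrib]
    split_ifs with hη
    · rw [Finset.sum_eq_single_of_mem j hη]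
      intro i _ hi
      rw [h1 i hi, sub_self]
    · apply Finset.sum_eq_zero
      intro i hi
      rw [h1 i (fun h => hη (h ▸ hi)), sub_self]
  have h4 := h3 ω
  have h5 := h3 ω'
  have h6 : r j = r' j := by
    by_cases ha : j ∈ ω <;> by_cases hb : j ∈ ω'
    · exact absurd ⟨fun _ => hb, fun _ => ha⟩ hj
    · rw [if_pos ha] at h4; rw [if_neg hb] at h5; linarith
    · rw [if_neg ha] at h4; rw [if_pos hb] at h5; linarith
    · exact absurd ⟨fun h => absurd h ha, fun h => absurd h hb⟩ hj
  funext i
  by_cases hi : i = j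
  · rw [hi]; exact h6
  · exact h1 i hi

lemma card_Icc_le {N : ℕ} (hN : 1 ≤ N) : (((Icc (-(N : ℤ)) N).card : ℕ) : ℝ) ≤ 3 * N := by
  rw [Int.card_Icc]
  have : ((N : ℤ) + 1 - (-(N : ℤ))).toNat = 2 * N + 1 := by omega
  rw [this]
  have h : (1 : ℝ) ≤ N := by exact_mod_cast hN
  push_cast
  linarith

lemma sum_pair {d : ℕ} (m : ℕ) {N : ℕ} (hN : 1 ≤ N) {ω ω' : Finset (Fin d)} (hne : ω ≠ ω') :
    ∑ r ∈ bx d N, ff m (sr r ω - sr r ω') ≤ ((3 + 4 * EE m * d) * N) ^ d := by
  classical
  obtain ⟨j, hj⟩ : ∃ j : Fin d, ¬ (j ∈ ω ↔ j ∈ ω') := by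
    by_contra hcon
    push Not at hcon
    exact hne (Finset.ext hcon)
  obtain ⟨t, ht⟩ : ∃ t : Fin d → Finset ℤ, t = fun i => if i = j then
    Icc (-((2 * d * N : ℕ) : ℤ)) (2 * d * N : ℕ) else Icc (-(N : ℤ)) N := ⟨_, rfl⟩
  have hNr : (1 : ℝ) ≤ N := by exact_mod_cast hN
  have hE := EE_pos m
  calc ∑ r ∈ bx d N, ff m (sr r ω - sr r ω') =
      ∑ r ∈ bx d N, (fun y : Fin d → ℤ => ff m (y j))
        (Function.update r j (sr r ω - sr r ω')) := by
        apply Finset.sum_congr rfl
        intro r _
        simp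
    _ = ∑ y ∈ (bx d N).image (fun r => Function.update r j (sr r ω - sr r ω')), ff m (y j) := by
        rw [Finset.sum_image]
        intro r _ r' _ h
        exact upd_inj hj h
    _ ≤ ∑ y ∈ Fintype.piFinset t, ff m (y j) := by
        apply Finset.sum_le_sum_of_subset_of_nonneg
        · intro y hy
          rw [mem_image] at hy
          obtain ⟨r, hr, rfl⟩ := hy
          rw [Fintype.mem_piFinset]
          intro i
          by_cases hi : i = j
          · subst hi
            rw [Function.update_self, ht]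
            simp only [if_true]
            rw [mem_Icc]
            have h1 := abs_le.mp (abs_sr_le hr ω)
            have h2 := abs_le.mp (abs_sr_le hr ω')
            push_cast
            constructor <;> linarith [h1.1, h1.2, h2.1, h2.2]
          · rw [Function.update_of_ne hi, ht]
            simp only [if_neg hi]
            have := hr
            unfold bx at this
            rw [Fintype.mem_piFinset] at this
            exact this i
        · intro y _ _
          exact ff_nonneg _ _
    _ = ∑ y ∈ Fintype.piFinset t, ∏ i, (if i = j then ff m (y i) else 1) := by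
        apply Finset.sum_congr rfl
        intro y _
        rw [Finset.prod_ite_eq' univ j]
        simp
    _ = ∏ i, ∑ z ∈ t i, (if i = j then ff m z else 1) := by
        rw [Finset.prod_univ_sum t (fun i z => if i = j then ff m z else (1 : ℝ))]
    _ ≤ ∏ i : Fin d, ((3 + 4 * EE m * d) * N) := by
        apply Finset.prod_le_prod
        · intro i _
          apply Finset.sum_nonneg
          intro z _
          split_ifs
          · exact ff_nonneg _ _
          · norm_num
        · intro i _
          by_cases hi : i = j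
          · rw [ht]
            simp only [if_pos hi]
            refine (sum_ff m (2 * d * N)).trans ?_
            push_cast
            nlinarith [mul_nonneg (mul_nonneg hE.le (Nat.cast_nonneg (α := ℝ) d))
              (Nat.cast_nonneg (α := ℝ) N)]
          · rw [ht]
            simp only [if_neg hi]
            rw [Finset.sum_const, nsmul_eq_mul, mul_one]
            refine (card_Icc_le hN).trans ?_
            have : 0 ≤ 4 * EE m * d := by positivity
            nlinarith
    _ = _ := by rw [Finset.prod_const, Finset.card_univ, Fintype.card_fin]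

/-- job 999 -/
theorem main : S_HAV := by
  classical
  intro d κ
  obtain ⟨K, hK⟩ : ∃ K : Finset (Σ _ : Finset (Fin d), Finset (Fin d)),
    K = (univ : Finset (Finset (Fin d))).sigma (fun ω => univ.erase ω) := ⟨_, rfl⟩
  obtain ⟨m, hm⟩ : ∃ m : ℕ, m = κ * K.card := ⟨_, rfl⟩
  refine ⟨3 ^ d + K.card * (3 + 4 * EE m * d) ^ d, ?_, ?_⟩
  · have := EE_pos m
    positivity
  intro N hN
  have h1 : ∀ r ∈ (bx d N).filter (fun r => Function.Injective (sr r)),
      ∏ ω : Finset (Fin d), ∏ ω' ∈ univ.erase ω, hh κ (sr r ω - sr r ω').natAbs ≤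
        1 + ∑ q ∈ K, ff m (sr r q.1 - sr r q.2) := by
    intro r hr
    rw [mem_filter] at hr
    rw [Finset.prod_sigma' univ (fun ω => univ.erase ω)
      (fun ω ω' => hh κ (sr r ω - sr r ω').natAbs), ← hK]
    have hq : ∀ q ∈ K, sr r q.1 - sr r q.2 ≠ 0 := by
      intro q hq h0
      rw [hK, mem_sigma, mem_erase] at hq
      exact hq.2.1 (hr.2 (by linarith)).symm
    refine (prod_le_aux K _ ?_).trans ?_
    · intro q hq'
      exact one_le_hh κ (by
        have := hq q hq'
        omega)
    · gcongr with q hq'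
      unfold ff
      rw [if_neg (hq q hq'), hm]
      unfold hh
      rw [pow_mul]
  calc _ ≤ ∑ r ∈ (bx d N).filter (fun r => Function.Injective (sr r)),
        (1 + ∑ q ∈ K, ff m (sr r q.1 - sr r q.2)) := Finset.sum_le_sum h1
    _ ≤ ∑ r ∈ bx d N, (1 + ∑ q ∈ K, ff m (sr r q.1 - sr r q.2)) := by
        apply Finset.sum_le_sum_of_subset_of_nonneg (Finset.filter_subset _ _)
        intro r _ _
        have : 0 ≤ ∑ q ∈ K, ff m (sr r q.1 - sr r q.2) := Finset.sum_nonneg fun _ _ => ff_nonneg _ _
        linarith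
    _ = ((bx d N).card : ℝ) + ∑ q ∈ K, ∑ r ∈ bx d N, ff m (sr r q.1 - sr r q.2) := by
        rw [Finset.sum_add_distrib, Finset.sum_comm]
        simp
    _ ≤ (3 * N) ^ d + ∑ q ∈ K, ((3 + 4 * EE m * d) * N) ^ d := by
        apply add_le_add
        · unfold bx
          rw [Fintype.card_piFinset]
          push_cast
          rw [Finset.prod_const, Finset.card_univ, Fintype.card_fin]
          exact pow_le_pow_left₀ (by positivity) (card_Icc_le hN) _
        · apply Finset.sum_le_sum
          intro q hq
          rw [hK, mem_sigma, mem_erase] at hq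
          exact sum_pair m hN (fun h => hq.2.1 h.symm)
    _ = _ := by
        rw [Finset.sum_const, nsmul_eq_mul, mul_pow, mul_pow]
        ring

end Pool.Agent.Y991.HAV
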